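import Pool.Agent.X193.CubeMix.Tri

namespace X193.CubeMix

open X193.CMT

/-- The cube, as `K_{4,4}` minus a perfect matching. -/
def cube : SimpleGraph (Fin 4 ⊕ Fin 4) where
  Adj u v := match u, v with
    | Sum.inl i, Sum.inr j => i ≠ j
    | Sum.inr i, Sum.inl j => i ≠ j
    | Sum.inl _, Sum.inl _ => False
    | Sum.inr _, Sum.inr _ => False
  symm := ⟨by
    rintro (x | i) (y | j) h
    · exact h
    · exact Ne.symm h
    · exact Ne.symm h
    · exact h⟩
  loopless := ⟨by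
    rintro (x | i) h
    · exact h
    · exact h⟩

variable {k q : ℕ}

def CV (k q : ℕ) (y x : Fin 4 → ℤ) : Prop := ∀ i j, i ≠ j → Ok k q (y i - x j)

theorem cv_val {y x : Fin 4 → ℤ} (h : CV k q y x) : Val cube k q (Sum.elim y x) := by
  rintro (i | i) (j | j) huv
  · exact huv.elim
  · exact h i j huv
  · exact (h j i (Ne.symm huv)).swap
  · exact huv.elim

theorem conn_x {y x x' : Fin 4 → ℤ} (h : CV k q y x) (h' : CV k q y x') :
    Conn cube k q (Sum.elim y x) (Sum.elim y x') := by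
  refine conn_of_indep (cv_val h) (cv_val h') ?_
  rintro (i | i) (j | j) huv
  · exact huv.elim
  · exact Or.inl rfl
  · exact Or.inr rfl
  · exact huv.elim

theorem conn_y {y y' x : Fin 4 → ℤ} (h : CV k q y x) (h' : CV k q y' x) :
    Conn cube k q (Sum.elim y x) (Sum.elim y' x) := by
  refine conn_of_indep (cv_val h) (cv_val h') ?_
  rintro (i | i) (j | j) huv
  · exact huv.elim
  · exact Or.inr rfl
  · exact Or.inl rfl
  · exact huv.elim

/-- the colouring with two colours `s + q` and `s` -/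
def st (q : ℕ) (s : ℤ) : Fin 4 ⊕ Fin 4 → ℤ :=
  Sum.elim (fun _ => s + q) (fun _ => s)

def GoodC (k q : ℕ) (y x : Fin 4 → ℤ) : Prop := Conn cube k q (Sum.elim y x) (st q 0)

theorem st_down1 (hk : 4 * q < k) (s : ℤ) : Conn cube k q (st q s) (st q (s - 1)) := by
  have h1 : CV k q (fun _ => s + q) (fun _ => s) := fun _ _ _ =>
    ok_pos (d := s + q - s) (by omega) (by omega)
  have h2 : CV k q (fun _ => s + q) (fun _ => s - 1) := fun _ _ _ =>
    ok_pos (d := s + q - (s - 1)) (by omega) (by omega)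
  have h3 : CV k q (fun _ => s - 1 + q) (fun _ => s - 1) := fun _ _ _ =>
    ok_pos (d := s - 1 + q - (s - 1)) (by omega) (by omega)
  exact (conn_x h1 h2).trans (conn_y h2 h3)

theorem st_down (hk : 4 * q < k) : ∀ (n : ℕ) (s : ℤ), Conn cube k q (st q s) (st q (s - n)) := by
  intro n
  induction n with
  | zero =>
    intro s
    have : s - ((0 : ℕ) : ℤ) = s := by simp
    rw [this]
    exact Conn.refl _
  | succ n ih =>
    intro s
    have : s - ((n + 1 : ℕ) : ℤ) = s - n - 1 := by push_cast; ring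
    rw [this]
    exact (ih s).trans (st_down1 hk _)

theorem st_zero (hk : 4 * q < k) (s : ℤ) : Conn cube k q (st q s) (st q 0) := by
  rcases le_total 0 s with h | h
  · have := st_down hk s.toNat s
    rwa [Int.toNat_of_nonneg h, sub_self] at this
  · have := st_down hk (-s).toNat 0
    rw [Int.toNat_of_nonneg (by omega)] at this
    have e : (0 : ℤ) - -s = s := by ring
    rw [e] at this
    exact this.symm

theorem good_of_point (hk : 4 * q < k) {y x : Fin 4 → ℤ} (h : CV k q y x) (p : ℤ)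
    (hp : ∀ j, Ok k q (p - x j)) : GoodC k q y x := by
  have h1 : CV k q (fun _ => p) x := fun _ j _ => hp j
  have h2 : CV k q (fun _ => p) (fun _ => p - q) := fun _ _ _ =>
    ok_pos (d := p - (p - q)) (by omega) (by omega)
  refine (conn_y h h1).trans ((conn_x h1 h2).trans ?_)
  have e : (Sum.elim (fun _ : Fin 4 => p) (fun _ : Fin 4 => p - q)) = st q (p - q) := by
    unfold st
    congr 1
    funext _
    ring
  rw [e]
  exact st_zero hk _

theorem good_of_gap (hk : 4 * q < k) {y : Fin 4 → ℤ} {x0 x1 x2 x3 : ℤ}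
    (h : CV k q y ![x0, x1, x2, x3]) (h01 : x0 ≤ x1) (h12 : x1 ≤ x2) (h23 : x2 ≤ x3)
    (h30 : x3 ≤ x0 + k)
    (hg : 2 * (q : ℤ) ≤ x1 - x0 ∨ 2 * (q : ℤ) ≤ x2 - x1 ∨ 2 * (q : ℤ) ≤ x3 - x2 ∨
      2 * (q : ℤ) ≤ x0 + k - x3) : GoodC k q y ![x0, x1, x2, x3] := by
  rcases hg with hg | hg | hg | hg
  · refine good_of_point hk h (x0 + q) ?_
    intro j
    fin_cases j
    · exact ok_pos (d := x0 + q - x0) (by omega) (by omega)
    · exact ok_neg (d := x0 + q - x1) (by omega) (by omega)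
    · exact ok_neg (d := x0 + q - x2) (by omega) (by omega)
    · exact ok_neg (d := x0 + q - x3) (by omega) (by omega)
  · refine good_of_point hk h (x1 + q) ?_
    intro j
    fin_cases j
    · exact ok_pos (d := x1 + q - x0) (by omega) (by omega)
    · exact ok_pos (d := x1 + q - x1) (by omega) (by omega)
    · exact ok_neg (d := x1 + q - x2) (by omega) (by omega)
    · exact ok_neg (d := x1 + q - x3) (by omega) (by omega)
  · refine good_of_point hk h (x2 + q) ?_
    intro j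
    fin_cases j
    · exact ok_pos (d := x2 + q - x0) (by omega) (by omega)
    · exact ok_pos (d := x2 + q - x1) (by omega) (by omega)
    · exact ok_pos (d := x2 + q - x2) (by omega) (by omega)
    · exact ok_neg (d := x2 + q - x3) (by omega) (by omega)
  · refine good_of_point hk h (x3 + q) ?_
    intro j
    fin_cases j
    · exact ok_pos (d := x3 + q - x0) (by omega) (by omega)
    · exact ok_pos (d := x3 + q - x1) (by omega) (by omega)
    · exact ok_pos (d := x3 + q - x2) (by omega) (by omega)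
    · exact ok_pos (d := x3 + q - x3) (by omega) (by omega)

/-- the linked configurations -/
structure Cfg (k q : ℕ) (y0 y1 y2 y3 x0 x1 x2 x3 : ℤ) : Prop where
  h01 : x0 ≤ x1
  h12 : x1 ≤ x2
  h23 : x2 ≤ x3
  h30 : x3 ≤ x0 + k
  a0 : x3 - k + q ≤ y0
  b0 : y0 ≤ x1 - q
  a1 : x0 + q ≤ y1
  b1 : y1 ≤ x2 - q
  a2 : x1 + q ≤ y2
  b2 : y2 ≤ x3 - q
  a3 : x2 + q ≤ y3
  b3 : y3 ≤ x0 + k - q

theorem Cfg.cv {y0 y1 y2 y3 x0 x1 x2 x3 : ℤ} (h : Cfg k q y0 y1 y2 y3 x0 x1 x2 x3) :
    CV k q ![y0, y1, y2, y3] ![x0, x1, x2, x3] := by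
  obtain ⟨h01, h12, h23, h30, a0, b0, a1, b1, a2, b2, a3, b3⟩ := h
  intro i j hij
  fin_cases i <;> fin_cases j
  · exact absurd rfl hij
  · exact ok_neg (d := y0 - x1) (by omega) (by omega)
  · exact ok_neg (d := y0 - x2) (by omega) (by omega)
  · exact ok_neg (d := y0 - x3) (by omega) (by omega)
  · exact ok_pos (d := y1 - x0) (by omega) (by omega)
  · exact absurd rfl hij
  · exact ok_neg (d := y1 - x2) (by omega) (by omega)
  · exact ok_neg (d := y1 - x3) (by omega) (by omega)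
  · exact ok_pos (d := y2 - x0) (by omega) (by omega)
  · exact ok_pos (d := y2 - x1) (by omega) (by omega)
  · exact absurd rfl hij
  · exact ok_neg (d := y2 - x3) (by omega) (by omega)
  · exact ok_pos (d := y3 - x0) (by omega) (by omega)
  · exact ok_pos (d := y3 - x1) (by omega) (by omega)
  · exact ok_pos (d := y3 - x2) (by omega) (by omega)
  · exact absurd rfl hij

theorem cfg_good (hk : 4 * q < k) : ∀ (n : ℕ) (y0 y1 y2 y3 x0 x1 x2 x3 : ℤ),
    Cfg k q y0 y1 y2 y3 x0 x1 x2 x3 →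
    (x1 - x0) + (x3 - x2) + (x3 - y1) + (x1 + k - y3) ≤ n →
    GoodC k q ![y0, y1, y2, y3] ![x0, x1, x2, x3] := by
  intro n
  induction n with
  | zero =>
    intro y0 y1 y2 y3 x0 x1 x2 x3 h hn
    have hcv := h.cv
    obtain ⟨h01, h12, h23, h30, a0, b0, a1, b1, a2, b2, a3, b3⟩ := h
    push_cast at hn
    exact good_of_gap hk hcv h01 h12 h23 h30 (by omega)
  | succ n ih =>
    intro y0 y1 y2 y3 x0 x1 x2 x3 h hn
    have hcv := h.cv
    by_cases hg : 2 * (q : ℤ) ≤ x1 - x0 ∨ 2 * (q : ℤ) ≤ x2 - x1 ∨ 2 * (q : ℤ) ≤ x3 - x2 ∨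
      2 * (q : ℤ) ≤ x0 + k - x3
    · exact good_of_gap hk hcv h.h01 h.h12 h.h23 h.h30 hg
    obtain ⟨h01, h12, h23, h30, a0, b0, a1, b1, a2, b2, a3, b3⟩ := h
    push_cast at hn
    have g1 : x0 < x1 := by omega
    have g2 : x2 < x3 := by omega
    by_cases c1 : x0 + q < y1
    · have hc : Cfg k q y0 y1 y2 y3 (x0 + 1) x1 x2 x3 := by
        constructor <;> omega
      exact (conn_x hcv hc.cv).trans (ih _ _ _ _ _ _ _ _ hc (by omega))
    by_cases c2 : y1 + q < x2
    · have hc : Cfg k q y0 (y1 + 1) y2 y3 x0 x1 x2 x3 := by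
        constructor <;> omega
      exact (conn_y hcv hc.cv).trans (ih _ _ _ _ _ _ _ _ hc (by omega))
    by_cases c3 : x2 + q < y3
    · have hc : Cfg k q y0 y1 y2 y3 x0 x1 (x2 + 1) x3 := by
        constructor <;> omega
      exact (conn_x hcv hc.cv).trans (ih _ _ _ _ _ _ _ _ hc (by omega))
    by_cases c4 : y3 + q < x0 + k
    · have hc : Cfg k q y0 y1 y2 (y3 + 1) x0 x1 x2 x3 := by
        constructor <;> omega
      exact (conn_y hcv hc.cv).trans (ih _ _ _ _ _ _ _ _ hc (by omega))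
    omega

theorem pos_lemma (hk : 4 * q < k) {p0 p1 p2 y : ℤ} (h01 : p0 ≤ p1) (h12 : p1 ≤ p2)
    (h2 : p2 ≤ p0 + k) (g1 : p2 - p1 < 2 * q) (g2 : p0 + k - p2 < 2 * q)
    (o0 : Ok k q (y - p0)) (o1 : Ok k q (y - p1)) (o2 : Ok k q (y - p2)) :
    ∃ j : ℤ, p0 + q ≤ y + j * k ∧ y + j * k ≤ p1 - q := by
  obtain ⟨m, m1, m2⟩ := o0
  refine ⟨-m, ?_⟩
  have e1 : (m + 1) * (k : ℤ) = m * k + k := by ring
  rw [e1] at m2
  have o1' : Ok k q (y + -m * k - p1) := o1.shift' (-m) (by ring)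
  have o2' : Ok k q (y + -m * k - p2) := o2.shift' (-m) (by ring)
  have e2 : -m * (k : ℤ) = -(m * k) := by ring
  rw [e2] at o1' o2' ⊢
  generalize m * (k : ℤ) = M at *
  have c1 := o1'.cases (by omega) (by omega)
  have c2 := o2'.cases (by omega) (by omega)
  omega

theorem sorted_good (hk : 4 * q < k) {y : Fin 4 → ℤ} {x0 x1 x2 x3 : ℤ}
    (h : CV k q y ![x0, x1, x2, x3]) (h01 : x0 ≤ x1) (h12 : x1 ≤ x2) (h23 : x2 ≤ x3)
    (h30 : x3 ≤ x0 + k) : GoodC k q y ![x0, x1, x2, x3] := by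
  by_cases hg : 2 * (q : ℤ) ≤ x1 - x0 ∨ 2 * (q : ℤ) ≤ x2 - x1 ∨ 2 * (q : ℤ) ≤ x3 - x2 ∨
      2 * (q : ℤ) ≤ x0 + k - x3
  · exact good_of_gap hk h h01 h12 h23 h30 hg
  have o : ∀ i j : Fin 4, i ≠ j → Ok k q (y i - (![x0, x1, x2, x3] : Fin 4 → ℤ) j) := h
  have o01 : Ok k q (y 0 - x1) := o 0 1 (by decide)
  have o02 : Ok k q (y 0 - x2) := o 0 2 (by decide)
  have o03 : Ok k q (y 0 - (x3 - k)) := (show Ok k q (y 0 - x3) from o 0 3 (by decide)).shift' 1
    (by ring)
  have o10 : Ok k q (y 1 - x0) := o 1 0 (by decide)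
  have o12 : Ok k q (y 1 - x2) := o 1 2 (by decide)
  have o13 : Ok k q (y 1 - x3) := o 1 3 (by decide)
  have o20 : Ok k q (y 2 - (x0 + k)) := (show Ok k q (y 2 - x0) from o 2 0 (by decide)).shift' (-1)
    (by ring)
  have o21 : Ok k q (y 2 - x1) := o 2 1 (by decide)
  have o23 : Ok k q (y 2 - x3) := o 2 3 (by decide)
  have o30 : Ok k q (y 3 - (x0 + k)) := (show Ok k q (y 3 - x0) from o 3 0 (by decide)).shift' (-1)
    (by ring)
  have o31 : Ok k q (y 3 - (x1 + k)) := (show Ok k q (y 3 - x1) from o 3 1 (by decide)).shift' (-1)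
    (by ring)
  have o32 : Ok k q (y 3 - x2) := o 3 2 (by decide)
  obtain ⟨j0, a0, b0⟩ := pos_lemma hk (p0 := x3 - k) (p1 := x1) (p2 := x2) (by omega) h12
    (by omega) (by omega) (by omega) o03 o01 o02
  obtain ⟨j1, a1, b1⟩ := pos_lemma hk (p0 := x0) (p1 := x2) (p2 := x3) (by omega) h23
    (by omega) (by omega) (by omega) o10 o12 o13
  obtain ⟨j2, a2, b2⟩ := pos_lemma hk (p0 := x1) (p1 := x3) (p2 := x0 + k) (by omega) (by omega)
    (by omega) (by omega) (by omega) o21 o23 o20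
  obtain ⟨j3, a3, b3⟩ := pos_lemma hk (p0 := x2) (p1 := x0 + k) (p2 := x1 + k) (by omega)
    (by omega) (by omega) (by omega) (by omega) o32 o30 o31
  have hc : Cfg k q (y 0 + j0 * k) (y 1 + j1 * k) (y 2 + j2 * k) (y 3 + j3 * k) x0 x1 x2 x3 :=
    ⟨h01, h12, h23, h30, a0, b0, a1, b1, a2, b2, a3, b3⟩
  refine (conn_y h hc.cv).trans ?_
  exact cfg_good hk _ _ _ _ _ _ _ _ _ hc (Int.self_le_toNat _)

theorem cv_good (hk : 4 * q < k) {y x : Fin 4 → ℤ} (h : CV k q y x) : GoodC k q y x := by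
  have hk' : (0 : ℤ) < k := by omega
  -- reduce `x` to `[0, k)`
  have h1 : CV k q y (fun j => x j % k) := by
    intro i j hij
    refine (h i j hij).shift' (x j / k) ?_
    have := Int.emod_add_mul_ediv (x j) k
    linarith
  refine (conn_x h h1).trans ?_
  have hb : ∀ j, 0 ≤ (fun j => x j % (k : ℤ)) j ∧ (fun j => x j % (k : ℤ)) j < k :=
    fun j => ⟨Int.emod_nonneg _ hk'.ne', Int.emod_lt_of_pos _ hk'⟩
  generalize (fun j => x j % (k : ℤ)) = X at *
  -- sort
  set σ := Tuple.sort X with hσ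
  have hmono : Monotone (X ∘ σ) := Tuple.monotone_sort X
  have h2 : CV k q (y ∘ σ) (X ∘ σ) := fun i j hij => h1 _ _ (fun h => hij (σ.injective h))
  have e : X ∘ σ = ![X (σ 0), X (σ 1), X (σ 2), X (σ 3)] := by
    funext i
    fin_cases i <;> rfl
  have h3 : GoodC k q (y ∘ σ) (X ∘ σ) := by
    rw [e] at h2 ⊢
    refine sorted_good hk h2 (hmono (by decide : (0 : Fin 4) ≤ 1))
      (hmono (by decide : (1 : Fin 4) ≤ 2)) (hmono (by decide : (2 : Fin 4) ≤ 3)) ?_
    have b1 := hb (σ 3)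
    have b2 := hb (σ 0)
    linarith [b1.2, b2.1]
  unfold GoodC at h3
  have h4 := h3.comp (Equiv.sumCongr σ.symm σ.symm) (by
    rintro (i | i) (j | j) huv
    · exact huv.elim
    · exact fun h => huv (σ.symm.injective h)
    · exact fun h => huv (σ.symm.injective h)
    · exact huv.elim)
  have e1 : (Sum.elim (y ∘ σ) (X ∘ σ)) ∘ (Equiv.sumCongr σ.symm σ.symm) = Sum.elim y X := by
    funext v
    rcases v with i | i <;> simp
  have e2 : (st q 0) ∘ (Equiv.sumCongr σ.symm σ.symm) = st q 0 := by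
    funext v
    rcases v with i | i <;> rfl
  rwa [e1, e2] at h4

theorem cube_conn (hk : 4 * q < k) (F F' : Fin 4 ⊕ Fin 4 → ℤ) (h : Val cube k q F)
    (h' : Val cube k q F') : Conn cube k q F F' := by
  have key : ∀ F : Fin 4 ⊕ Fin 4 → ℤ, Val cube k q F → Conn cube k q F (st q 0) := by
    intro F h
    have e : F = Sum.elim (fun i => F (Sum.inl i)) (fun i => F (Sum.inr i)) := by
      funext v
      rcases v with i | i <;> rfl
    rw [e]
    exact cv_good hk (fun i j hij => h (Sum.inl i) (Sum.inr j) hij)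
  exact (key F h).trans (key F' h').symm

end X193.CubeMix
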