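import Pool.Agent.X193.CMT.Base

namespace X193.CubeMix

open X193.CMT

/-- differences that are allowed modulo `k` -/
def Ok (k q : ℕ) (d : ℤ) : Prop :=
  ∃ m : ℤ, m * k + q ≤ d ∧ d ≤ (m + 1) * k - q

theorem Ok.neg {k q : ℕ} {d : ℤ} (h : Ok k q d) : Ok k q (-d) := by
  obtain ⟨m, h1, h2⟩ := h
  refine ⟨-m - 1, ?_, ?_⟩
  · have : (-m - 1) * (k : ℤ) = -((m + 1) * k) := by ring
    rw [this]
    linarith
  · have : (-m - 1 + 1) * (k : ℤ) = -(m * k) := by ring
    rw [this]
    linarith

theorem Ok.swap {k q : ℕ} {a b : ℤ} (h : Ok k q (a - b)) : Ok k q (b - a) := by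
  have := h.neg
  rwa [neg_sub] at this

theorem Ok.shift {k q : ℕ} {d : ℤ} (h : Ok k q d) (j : ℤ) : Ok k q (d + j * k) := by
  obtain ⟨m, h1, h2⟩ := h
  refine ⟨m + j, ?_, ?_⟩
  · have : (m + j) * (k : ℤ) = m * k + j * k := by ring
    rw [this]
    linarith
  · have : (m + j + 1) * (k : ℤ) = (m + 1) * k + j * k := by ring
    rw [this]
    linarith

theorem Ok.shift' {k q : ℕ} {d e : ℤ} (h : Ok k q d) (j : ℤ) (he : e = d + j * k) :
    Ok k q e := by
  rw [he]
  exact h.shift j

theorem ok_pos {k q : ℕ} {d : ℤ} (h1 : (q : ℤ) ≤ d) (h2 : d ≤ (k : ℤ) - q) : Ok k q d :=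
  ⟨0, by linarith, by linarith⟩

theorem ok_neg {k q : ℕ} {d : ℤ} (h1 : (q : ℤ) - k ≤ d) (h2 : d ≤ -(q : ℤ)) : Ok k q d :=
  ⟨-1, by linarith, by linarith⟩

theorem Ok.cases {k q : ℕ} {d : ℤ} (h : Ok k q d) (h1 : -(k : ℤ) < d) (h2 : d < k) :
    ((q : ℤ) ≤ d ∧ d ≤ (k : ℤ) - q) ∨ ((q : ℤ) - k ≤ d ∧ d ≤ -(q : ℤ)) := by
  obtain ⟨m, h3, h4⟩ := h
  have hk : (0 : ℤ) < k := by linarith
  have hq : (0 : ℤ) ≤ q := by positivity
  have hm1 : m < 1 := by
    by_contra hc
    push Not at hc
    nlinarith
  have hm2 : -2 < m := by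
    by_contra hc
    push Not at hc
    nlinarith
  have hm : m = 0 ∨ m = -1 := by omega
  rcases hm with rfl | rfl
  · left
    constructor <;> linarith
  · right
    constructor <;> linarith

variable {V : Type}

/-- colourings by integers, the constraints being read modulo `k` -/
def Val (G : SimpleGraph V) (k q : ℕ) (F : V → ℤ) : Prop :=
  ∀ u v, G.Adj u v → Ok k q (F u - F v)

def Mv (G : SimpleGraph V) (k q : ℕ) (F F' : V → ℤ) : Prop :=
  Val G k q F ∧ Val G k q F' ∧ ∃ v, ∀ u, u ≠ v → F u = F' u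

def Conn (G : SimpleGraph V) (k q : ℕ) (F F' : V → ℤ) : Prop :=
  Relation.ReflTransGen (Mv G k q) F F'

theorem Mv.symm {G : SimpleGraph V} {k q : ℕ} {F F' : V → ℤ} (h : Mv G k q F F') :
    Mv G k q F' F := by
  obtain ⟨h1, h2, v, hv⟩ := h
  exact ⟨h2, h1, v, fun u hu => (hv u hu).symm⟩

theorem Conn.refl {G : SimpleGraph V} {k q : ℕ} (F : V → ℤ) : Conn G k q F F :=
  Relation.ReflTransGen.refl

theorem Conn.trans {G : SimpleGraph V} {k q : ℕ} {F F' F'' : V → ℤ} (h : Conn G k q F F')
    (h' : Conn G k q F' F'') : Conn G k q F F'' :=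
  Relation.ReflTransGen.trans h h'

theorem Mv.conn {G : SimpleGraph V} {k q : ℕ} {F F' : V → ℤ} (h : Mv G k q F F') :
    Conn G k q F F' :=
  Relation.ReflTransGen.single h

theorem Conn.symm {G : SimpleGraph V} {k q : ℕ} {F F' : V → ℤ} (h : Conn G k q F F') :
    Conn G k q F' F := by
  unfold Conn at *
  induction h with
  | refl => exact Relation.ReflTransGen.refl
  | tail _ h2 ih => exact Relation.ReflTransGen.head h2.symm ih

theorem Conn.val {G : SimpleGraph V} {k q : ℕ} {F F' : V → ℤ} (h : Conn G k q F F')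
    (hF : Val G k q F) : Val G k q F' := by
  unfold Conn at *
  induction h with
  | refl => exact hF
  | tail _ h2 _ => exact h2.2.1

/-- reduction modulo `k` -/
def red (k : ℕ) (F : V → ℤ) : V → ℤ := fun v => F v % k

theorem red_isCol {G : SimpleGraph V} {k q : ℕ} (hk : 0 < k) {F : V → ℤ} (hF : Val G k q F) :
    IsCol G k q (red k F) := by
  have hk' : (0 : ℤ) < k := by exact_mod_cast hk
  refine ⟨fun v => ⟨Int.emod_nonneg _ hk'.ne', Int.emod_lt_of_pos _ hk'⟩, ?_⟩
  intro u v huv
  have h1 := hF u v huv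
  have e : red k F u - red k F v = (F u - F v) + (F v / k - F u / k) * k := by
    have hu := Int.emod_add_mul_ediv (F u) k
    have hv := Int.emod_add_mul_ediv (F v) k
    simp only [red]
    linarith
  have h2 : Ok k q (red k F u - red k F v) := h1.shift' _ e
  have a1 := Int.emod_nonneg (F u) hk'.ne'
  have a2 := Int.emod_lt_of_pos (F u) hk'
  have b1 := Int.emod_nonneg (F v) hk'.ne'
  have b2 := Int.emod_lt_of_pos (F v) hk'
  have h3 := h2.cases (by simp only [red]; linarith) (by simp only [red]; linarith)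
  have hq : (0 : ℤ) ≤ q := by positivity
  rcases h3 with ⟨c1, c2⟩ | ⟨c1, c2⟩
  · rw [abs_of_nonneg (by linarith)]
    exact ⟨c1, c2⟩
  · rw [abs_of_nonpos (by linarith)]
    constructor <;> linarith

theorem isCol_val {G : SimpleGraph V} {k q : ℕ} {f : V → ℤ} (hf : IsCol G k q f) :
    Val G k q f := by
  intro u v huv
  have h := hf.2 u v huv
  rcases le_total 0 (f u - f v) with h0 | h0
  · rw [abs_of_nonneg h0] at h
    exact ok_pos h.1 h.2
  · rw [abs_of_nonpos h0] at h
    exact ok_neg (by linarith [h.2]) (by linarith [h.1])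

theorem red_eq {G : SimpleGraph V} {k q : ℕ} {f : V → ℤ} (hf : IsCol G k q f) :
    red k f = f := by
  funext v
  exact Int.emod_eq_of_lt (hf.1 v).1 (hf.1 v).2

theorem red_conn {G : SimpleGraph V} {k q : ℕ} (hk : 0 < k) {F F' : V → ℤ}
    (h : Conn G k q F F') : Relation.ReflTransGen (Move G k q) (red k F) (red k F') := by
  unfold Conn at h
  induction h with
  | refl => exact Relation.ReflTransGen.refl
  | tail _ h2 ih =>
    refine Relation.ReflTransGen.tail ih ?_
    obtain ⟨h3, h4, v, hv⟩ := h2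
    refine ⟨red_isCol hk h3, red_isCol hk h4, v, ?_⟩
    intro u hu
    simp only [red, hv u hu]

theorem mixing_of_conn {G : SimpleGraph V} {k q : ℕ} (hk : 0 < k)
    (h : ∀ F F' : V → ℤ, Val G k q F → Val G k q F' → Conn G k q F F') : Mixing G k q := by
  intro f g hf hg
  have := red_conn hk (h f g (isCol_val hf) (isCol_val hg))
  rwa [red_eq hf, red_eq hg] at this

/-- Two colourings such that every edge has an end on which they agree are connected. -/
theorem conn_of_indep [Fintype V] {G : SimpleGraph V} {k q : ℕ} {F F' : V → ℤ}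
    (hF : Val G k q F) (hF' : Val G k q F')
    (hI : ∀ u v, G.Adj u v → F u = F' u ∨ F v = F' v) : Conn G k q F F' := by
  classical
  have hval : ∀ s : Finset V, Val G k q (fun v => if v ∈ s then F' v else F v) := by
    intro s u v huv
    have h1 := hF u v huv
    have h2 := hF' u v huv
    by_cases hu : u ∈ s
    · by_cases hv : v ∈ s
      · simpa [hu, hv] using h2
      · rcases hI u v huv with h | h
        · simpa [hu, hv, ← h] using h1
        · simpa [hu, hv, h] using h2
    · by_cases hv : v ∈ s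
      · rcases hI u v huv with h | h
        · simpa [hu, hv, h] using h2
        · simpa [hu, hv, ← h] using h1
      · simpa [hu, hv] using h1
  have key : ∀ s : Finset V, Conn G k q F (fun v => if v ∈ s then F' v else F v) := by
    intro s
    induction s using Finset.induction_on with
    | empty =>
      have : (fun v => if v ∈ (∅ : Finset V) then F' v else F v) = F := by
        funext v
        simp
      rw [this]
      exact Conn.refl F
    | insert a s _ ih =>
      refine ih.trans (Mv.conn ⟨hval s, hval _, a, ?_⟩)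
      intro u hu
      simp [Finset.mem_insert, hu]
  have := key Finset.univ
  simpa using this

/-- Symmetries of the graph. -/
theorem Conn.comp {G : SimpleGraph V} {k q : ℕ} {F F' : V → ℤ} (h : Conn G k q F F')
    (e : Equiv.Perm V) (he : ∀ u v, G.Adj u v → G.Adj (e u) (e v)) :
    Conn G k q (F ∘ e) (F' ∘ e) := by
  unfold Conn at *
  induction h with
  | refl => exact Relation.ReflTransGen.refl
  | tail _ h2 ih =>
    refine Relation.ReflTransGen.tail ih ?_
    obtain ⟨h3, h4, v, hv⟩ := h2
    refine ⟨fun a b hab => h3 _ _ (he a b hab), fun a b hab => h4 _ _ (he a b hab),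
      e.symm v, ?_⟩
    intro u hu
    exact hv (e u) (fun h => hu (by rw [← h]; simp))

end X193.CubeMix
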