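import Pool.Agent.X193.CubeMix.Cube
import Pool.Agent.X193.CMT.Main

namespace X193.CubeMix

open X193.CMT

/-- The cube with a triangle attached by an edge. -/
def Gr : SimpleGraph ((Fin 4 ⊕ Fin 4) ⊕ Fin 3) := att cube (Sum.inl 0)

theorem gr_mixing {k q : ℕ} (hq : 0 < q) (hk : 4 * q < k) : Mixing Gr k q :=
  mixing_of_conn (by omega) (att_conn hk.le hq (cube_conn hk))

/-- a colouring whose restriction to the cube cannot change -/
def f0 : (Fin 4 ⊕ Fin 4) ⊕ Fin 3 → ℤ :=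
  Sum.elim (Sum.elim (fun i => ((i : ℕ) : ℤ)) (fun i => ((i : ℕ) : ℤ))) ![1, 2, 3]

def f1 : (Fin 4 ⊕ Fin 4) ⊕ Fin 3 → ℤ :=
  Sum.elim (Sum.elim (fun _ => 0) (fun _ => 1)) ![1, 2, 3]

theorem f0_col : IsCol Gr 4 1 f0 := by
  constructor
  · rintro ((i | i) | i) <;> fin_cases i <;> simp [f0]
  · rintro ((i | i) | i) ((j | j) | j) huv
    · exact huv.elim
    · have hij : i ≠ j := huv
      fin_cases i <;> fin_cases j <;> simp_all [f0]
    · obtain ⟨h1, h2⟩ : (Sum.inl i : Fin 4 ⊕ Fin 4) = Sum.inl 0 ∧ j = 0 := huv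
      obtain rfl := Sum.inl.inj h1
      subst h2
      simp [f0]
    · have hij : i ≠ j := huv
      fin_cases i <;> fin_cases j <;> simp_all [f0]
    · exact huv.elim
    · obtain ⟨h1, h2⟩ : (Sum.inr i : Fin 4 ⊕ Fin 4) = Sum.inl 0 ∧ j = 0 := huv
      cases h1
    · obtain ⟨h1, h2⟩ : (Sum.inl j : Fin 4 ⊕ Fin 4) = Sum.inl 0 ∧ i = 0 := huv
      obtain rfl := Sum.inl.inj h1
      subst h2
      simp [f0]
    · obtain ⟨h1, h2⟩ : (Sum.inr j : Fin 4 ⊕ Fin 4) = Sum.inl 0 ∧ i = 0 := huv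
      cases h1
    · have hij : i ≠ j := huv
      fin_cases i <;> fin_cases j <;> simp_all [f0]

theorem f1_col : IsCol Gr 4 1 f1 := by
  constructor
  · rintro ((i | i) | i) <;> fin_cases i <;> simp [f1]
  · rintro ((i | i) | i) ((j | j) | j) huv
    · exact huv.elim
    · simp [f1]
    · obtain ⟨h1, h2⟩ : (Sum.inl i : Fin 4 ⊕ Fin 4) = Sum.inl 0 ∧ j = 0 := huv
      subst h2
      simp [f1]
    · simp [f1]
    · exact huv.elim
    · obtain ⟨h1, h2⟩ : (Sum.inr i : Fin 4 ⊕ Fin 4) = Sum.inl 0 ∧ j = 0 := huv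
      cases h1
    · obtain ⟨h1, h2⟩ : (Sum.inl j : Fin 4 ⊕ Fin 4) = Sum.inl 0 ∧ i = 0 := huv
      subst h2
      simp [f1]
    · obtain ⟨h1, h2⟩ : (Sum.inr j : Fin 4 ⊕ Fin 4) = Sum.inl 0 ∧ i = 0 := huv
      cases h1
    · have hij : i ≠ j := huv
      fin_cases i <;> fin_cases j <;> simp_all [f1]

/-- a value in `{0, 1, 2, 3}` different from all `j ≠ i` is `i` -/
theorem forced (i : Fin 4) (c : ℤ) (h0 : 0 ≤ c) (h4 : c < 4)
    (h : ∀ j : Fin 4, i ≠ j → (1 : ℤ) ≤ |c - ((j : ℕ) : ℤ)|) : c = ((i : ℕ) : ℤ) := by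
  have key : ∀ j : Fin 4, i ≠ j → c ≠ ((j : ℕ) : ℤ) := by
    intro j hj hc
    have := h j hj
    rw [hc, sub_self, abs_zero] at this
    omega
  by_contra hne
  obtain ⟨j, hj⟩ : ∃ j : Fin 4, c = ((j : ℕ) : ℤ) := by
    refine ⟨⟨c.toNat, by omega⟩, ?_⟩
    simp only
    omega
  by_cases hij : i = j
  · subst hij
    exact hne hj
  · exact key j hij hj

theorem frozen {g : (Fin 4 ⊕ Fin 4) ⊕ Fin 3 → ℤ}
    (h : Relation.ReflTransGen (Move Gr 4 1) f0 g) :
    ∀ i : Fin 4, g (Sum.inl (Sum.inl i)) = ((i : ℕ) : ℤ) ∧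
      g (Sum.inl (Sum.inr i)) = ((i : ℕ) : ℤ) := by
  induction h with
  | refl => exact fun i => ⟨rfl, rfl⟩
  | @tail g1 g2 _ h2 ih =>
    obtain ⟨_, hg2, v, hv⟩ := h2
    intro i
    constructor
    · by_cases hvi : v = Sum.inl (Sum.inl i)
      · have hb := hg2.1 (Sum.inl (Sum.inl i))
        refine forced i _ hb.1 (by exact_mod_cast hb.2) ?_
        intro j hij
        have h3 := hg2.2 (Sum.inl (Sum.inl i)) (Sum.inl (Sum.inr j)) hij
        have h4 : g2 (Sum.inl (Sum.inr j)) = ((j : ℕ) : ℤ) := by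
          rw [← hv _ (by rw [hvi]; simp)]
          exact (ih j).2
        rw [h4] at h3
        exact_mod_cast h3.1
      · rw [← hv _ (fun h => hvi h.symm)]
        exact (ih i).1
    · by_cases hvi : v = Sum.inl (Sum.inr i)
      · have hb := hg2.1 (Sum.inl (Sum.inr i))
        refine forced i _ hb.1 (by exact_mod_cast hb.2) ?_
        intro j hij
        have h3 := hg2.2 (Sum.inl (Sum.inr i)) (Sum.inl (Sum.inl j)) hij
        have h4 : g2 (Sum.inl (Sum.inl j)) = ((j : ℕ) : ℤ) := by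
          rw [← hv _ (by rw [hvi]; simp)]
          exact (ih j).1
        rw [h4] at h3
        exact_mod_cast h3.1
      · rw [← hv _ (fun h => hvi h.symm)]
        exact (ih i).2

theorem gr_not_mixing : ¬ Mixing Gr 4 1 := by
  intro h
  have := (frozen (h f0 f1 f0_col f1_col) 1).1
  simp [f1] at this

theorem gr_connected : Gr.Connected := by
  have hb : ∀ i j : Fin 4, i ≠ j →
      Gr.Reachable (Sum.inl (Sum.inl i)) (Sum.inl (Sum.inr j)) :=
    fun i j hij => SimpleGraph.Adj.reachable (show Gr.Adj _ _ from hij)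
  have h01 := hb 0 1 (by decide)
  have h02 := hb 0 2 (by decide)
  have h03 := hb 0 3 (by decide)
  have h21 := hb 2 1 (by decide)
  have h31 := hb 3 1 (by decide)
  have h12 := hb 1 2 (by decide)
  have h10 := hb 1 0 (by decide)
  have ht0 : Gr.Reachable (Sum.inl (Sum.inl 0)) (Sum.inr 0) :=
    SimpleGraph.Adj.reachable (show Gr.Adj _ _ from ⟨rfl, rfl⟩)
  have ht1 : Gr.Reachable (Sum.inr 0) (Sum.inr 1) :=
    SimpleGraph.Adj.reachable (show Gr.Adj _ _ from (by decide : (0 : Fin 3) ≠ 1))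
  have ht2 : Gr.Reachable (Sum.inr 0) (Sum.inr 2) :=
    SimpleGraph.Adj.reachable (show Gr.Adj _ _ from (by decide : (0 : Fin 3) ≠ 2))
  have key : ∀ v, Gr.Reachable (Sum.inl (Sum.inl 0)) v := by
    rintro ((i | i) | i)
    · fin_cases i
      · exact SimpleGraph.Reachable.refl _
      · exact h02.trans h12.symm
      · exact h01.trans h21.symm
      · exact h01.trans h31.symm
    · fin_cases i
      · exact (h02.trans h12.symm).trans h10
      · exact h01
      · exact h02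
      · exact h03
    · fin_cases i
      · exact ht0
      · exact ht0.trans ht1
      · exact ht0.trans ht2
  haveI : Nonempty ((Fin 4 ⊕ Fin 4) ⊕ Fin 3) := ⟨Sum.inr 0⟩
  exact ⟨fun u v => (key u).symm.trans (key v)⟩

theorem gr_not_bipartite : ¬ Gr.Colorable 2 := by
  rintro ⟨C⟩
  have h1 : C (Sum.inr 0) ≠ C (Sum.inr 1) :=
    C.valid (show Gr.Adj _ _ from (by decide : (0 : Fin 3) ≠ 1))
  have h2 : C (Sum.inr 0) ≠ C (Sum.inr 2) :=
    C.valid (show Gr.Adj _ _ from (by decide : (0 : Fin 3) ≠ 2))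
  have h3 : C (Sum.inr 1) ≠ C (Sum.inr 2) :=
    C.valid (show Gr.Adj _ _ from (by decide : (1 : Fin 3) ≠ 2))
  omega

theorem gr_good_iff (x : ℝ) : x ∈ Good Gr ↔ ∃ l : ℚ, (l : ℝ) = x ∧ 4 < l := by
  constructor
  · rintro ⟨l, rfl, h⟩
    refine ⟨l, rfl, ?_⟩
    by_contra hl
    push Not at hl
    exact gr_not_mixing (h 4 1 (by norm_num) (by norm_num) (by norm_num; exact hl))
  · rintro ⟨l, rfl, h⟩
    refine ⟨l, rfl, ?_⟩
    intro k q _ hq hkq
    refine gr_mixing hq ?_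
    have hq' : (0 : ℚ) < q := by exact_mod_cast hq
    have h1 : (4 : ℚ) < k / q := lt_of_lt_of_le h hkq
    rw [lt_div_iff₀ hq'] at h1
    exact_mod_cast h1

theorem gr_glb : IsGLB (Good Gr) 4 := by
  constructor
  · intro x hx
    obtain ⟨l, rfl, hl⟩ := (gr_good_iff x).mp hx
    have : (4 : ℝ) < l := by exact_mod_cast hl
    exact this.le
  · intro y hy
    by_contra hc
    push Not at hc
    obtain ⟨l, h1, h2⟩ := exists_rat_btwn hc
    have : (l : ℝ) ∈ Good Gr := (gr_good_iff _).mpr ⟨l, rfl, by exact_mod_cast h1⟩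
    have := hy this
    linarith

theorem gr_not_attained : (4 : ℝ) ∉ Good Gr := by
  intro h
  obtain ⟨l, hl, h4⟩ := (gr_good_iff 4).mp h
  have : (l : ℝ) = ((4 : ℚ) : ℝ) := by rw [hl]; norm_num
  have := Rat.cast_injective this
  linarith

theorem gr_threshold : IsLeast {n : ℕ | 0 < n ∧ ∀ k, n ≤ k → Mixing Gr k 1} 5 := by
  constructor
  · exact ⟨by norm_num, fun k hk => gr_mixing (by norm_num) (by omega)⟩
  · rintro n ⟨_, hn⟩
    by_contra hc
    exact gr_not_mixing (hn 4 (by omega))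

end X193.CubeMix
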