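import Pool.Agent.X193.CubeMix.Lift

namespace X193.CubeMix

open X193.CMT

/-- The graph obtained from `H` by adding a triangle on `Fin 3` and an edge between the
vertex `a` of `H` and the vertex `0` of the triangle. -/
def att {W : Type} (H : SimpleGraph W) (a : W) : SimpleGraph (W ⊕ Fin 3) where
  Adj u v := match u, v with
    | Sum.inl x, Sum.inl y => H.Adj x y
    | Sum.inl x, Sum.inr i => x = a ∧ i = 0
    | Sum.inr i, Sum.inl x => x = a ∧ i = 0
    | Sum.inr i, Sum.inr j => i ≠ j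
  symm := ⟨by
    rintro (x | i) (y | j) h
    · exact h.symm
    · exact h
    · exact h
    · exact Ne.symm h⟩
  loopless := ⟨by
    rintro (x | i) h
    · exact H.loopless.irrefl x h
    · exact h rfl⟩

/-- the state with the colours `c, d, e` on the triangle -/
def mk {W : Type} (F : W → ℤ) (c d e : ℤ) : W ⊕ Fin 3 → ℤ := Sum.elim F ![c, d, e]

def TV (k q : ℕ) (y c d e : ℤ) : Prop :=
  Ok k q (y - c) ∧ Ok k q (c - d) ∧ Ok k q (c - e) ∧ Ok k q (d - e)

variable {W : Type} {H : SimpleGraph W} {a : W} {k q : ℕ}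

theorem val_mk {F : W → ℤ} {c d e : ℤ} (hF : Val H k q F) (h : TV k q (F a) c d e) :
    Val (att H a) k q (mk F c d e) := by
  obtain ⟨h1, h2, h3, h4⟩ := h
  rintro (x | i) (y | j) huv
  · exact hF x y huv
  · obtain ⟨rfl, rfl⟩ := huv
    exact h1
  · obtain ⟨rfl, rfl⟩ := huv
    exact h1.swap
  · have hij : i ≠ j := huv
    fin_cases i <;> fin_cases j
    · exact absurd rfl hij
    · exact h2
    · exact h3
    · exact h2.swap
    · exact absurd rfl hij
    · exact h4
    · exact h3.swap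
    · exact h4.swap
    · exact absurd rfl hij

theorem eq_mk (Φ : W ⊕ Fin 3 → ℤ) :
    Φ = mk (fun w => Φ (Sum.inl w)) (Φ (Sum.inr 0)) (Φ (Sum.inr 1)) (Φ (Sum.inr 2)) := by
  funext v
  rcases v with x | i
  · rfl
  · fin_cases i <;> rfl

theorem val_split {Φ : W ⊕ Fin 3 → ℤ} (h : Val (att H a) k q Φ) :
    Val H k q (fun w => Φ (Sum.inl w)) ∧
      TV k q (Φ (Sum.inl a)) (Φ (Sum.inr 0)) (Φ (Sum.inr 1)) (Φ (Sum.inr 2)) := by
  refine ⟨fun u v huv => h (Sum.inl u) (Sum.inl v) huv, ?_, ?_, ?_, ?_⟩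
  · exact h (Sum.inl a) (Sum.inr 0) ⟨rfl, rfl⟩
  · exact h (Sum.inr 0) (Sum.inr 1) (by show (0 : Fin 3) ≠ 1; decide)
  · exact h (Sum.inr 0) (Sum.inr 2) (by show (0 : Fin 3) ≠ 2; decide)
  · exact h (Sum.inr 1) (Sum.inr 2) (by show (1 : Fin 3) ≠ 2; decide)

theorem step0 {F : W → ℤ} {c d e : ℤ} (c' : ℤ) (hF : Val H k q F) (h : TV k q (F a) c d e)
    (h' : TV k q (F a) c' d e) : Conn (att H a) k q (mk F c d e) (mk F c' d e) := by
  refine Mv.conn ⟨val_mk hF h, val_mk hF h', Sum.inr 0, ?_⟩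
  rintro (x | i) hu
  · rfl
  · fin_cases i
    · exact absurd rfl hu
    · rfl
    · rfl

theorem step1 {F : W → ℤ} {c d e : ℤ} (d' : ℤ) (hF : Val H k q F) (h : TV k q (F a) c d e)
    (h' : TV k q (F a) c d' e) : Conn (att H a) k q (mk F c d e) (mk F c d' e) := by
  refine Mv.conn ⟨val_mk hF h, val_mk hF h', Sum.inr 1, ?_⟩
  rintro (x | i) hu
  · rfl
  · fin_cases i
    · rfl
    · exact absurd rfl hu
    · rfl

theorem step2 {F : W → ℤ} {c d e : ℤ} (e' : ℤ) (hF : Val H k q F) (h : TV k q (F a) c d e)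
    (h' : TV k q (F a) c d e') : Conn (att H a) k q (mk F c d e) (mk F c d e') := by
  refine Mv.conn ⟨val_mk hF h, val_mk hF h', Sum.inr 2, ?_⟩
  rintro (x | i) hu
  · rfl
  · fin_cases i
    · rfl
    · rfl
    · exact absurd rfl hu

/-- a normal form for the triangle -/
def can (q : ℕ) (F : W → ℤ) (c : ℤ) : W ⊕ Fin 3 → ℤ := mk F c (c + q) (c + 2 * q)

theorem tv_can (hk : 4 * q ≤ k) {y c : ℤ} (h : Ok k q (y - c)) :
    TV k q y c (c + q) (c + 2 * q) := by
  have hk' : (4 : ℤ) * q ≤ k := by exact_mod_cast hk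
  have hq : (0 : ℤ) ≤ q := by positivity
  exact ⟨h, ok_neg (by linarith) (by linarith), ok_neg (by linarith) (by linarith),
    ok_neg (by linarith) (by linarith)⟩

theorem exists_lift (hk : 0 < k) (c d : ℤ) :
    ∃ j : ℤ, c ≤ d + j * k ∧ d + j * k < c + k := by
  have hk' : (0 : ℤ) < k := by exact_mod_cast hk
  refine ⟨-((d - c) / k), ?_, ?_⟩
  · have h1 := Int.emod_add_mul_ediv (d - c) k
    have h2 := Int.emod_nonneg (d - c) hk'.ne'
    have : -((d - c) / (k : ℤ)) * k = -(k * ((d - c) / k)) := by ring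
    rw [this]
    linarith
  · have h1 := Int.emod_add_mul_ediv (d - c) k
    have h2 := Int.emod_lt_of_pos (d - c) hk'
    have : -((d - c) / (k : ℤ)) * k = -(k * ((d - c) / k)) := by ring
    rw [this]
    linarith

theorem to_can1 (hk : 4 * q ≤ k) (hq : 0 < q) {F : W → ℤ} (hF : Val H k q F) {c d e : ℤ}
    (h : TV k q (F a) c d e) : Conn (att H a) k q (mk F c d e) (can q F c) := by
  have hk' : (4 : ℤ) * q ≤ k := by exact_mod_cast hk
  have hq' : (0 : ℤ) < q := by exact_mod_cast hq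
  obtain ⟨j1, hd1, hd2⟩ := exists_lift (k := k) (by omega) c d
  obtain ⟨j2, he1, he2⟩ := exists_lift (k := k) (by omega) c e
  obtain ⟨h1, h2, h3, h4⟩ := h
  have s1 : TV k q (F a) c (d + j1 * k) e :=
    ⟨h1, h2.shift' (-j1) (by ring), h3, h4.shift' j1 (by ring)⟩
  have s2 : TV k q (F a) c (d + j1 * k) (e + j2 * k) :=
    ⟨h1, s1.2.1, h3.shift' (-j2) (by ring), s1.2.2.2.shift' (-j2) (by ring)⟩
  refine (step1 _ hF ⟨h1, h2, h3, h4⟩ s1).trans ?_
  refine (step2 _ hF s1 s2).trans ?_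
  generalize d + j1 * (k : ℤ) = D at *
  generalize e + j2 * (k : ℤ) = E at *
  obtain ⟨t1, t2, t3, t4⟩ := s2
  have u2 := t2.cases (by linarith) (by linarith)
  have u3 := t3.cases (by linarith) (by linarith)
  have u4 := t4.cases (by linarith) (by linarith)
  have v2 : c + q ≤ D ∧ D ≤ c + k - q := by omega
  have v3 : c + q ≤ E ∧ E ≤ c + k - q := by omega
  obtain ⟨v21, v22⟩ := v2
  obtain ⟨v31, v32⟩ := v3
  rcases u4 with u | u
  · -- E + q ≤ D
    have w1 : TV k q (F a) c D (c + q) :=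
      ⟨t1, t2, ok_neg (by omega) (by omega), ok_pos (by omega) (by omega)⟩
    have w2 : TV k q (F a) c (c + 2 * q) (c + q) :=
      ⟨t1, ok_neg (by omega) (by omega), w1.2.2.1, ok_pos (by omega) (by omega)⟩
    have w3 : TV k q (F a) c (c + 2 * q) (c + 3 * q) :=
      ⟨t1, w2.2.1, ok_neg (by omega) (by omega), ok_neg (by omega) (by omega)⟩
    have w4 : TV k q (F a) c (c + q) (c + 3 * q) :=
      ⟨t1, ok_neg (by omega) (by omega), w3.2.2.1, ok_neg (by omega) (by omega)⟩
    refine (step2 _ hF ⟨t1, t2, t3, t4⟩ w1).trans ?_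
    refine (step1 _ hF w1 w2).trans ?_
    refine (step2 _ hF w2 w3).trans ?_
    refine (step1 _ hF w3 w4).trans ?_
    exact step2 _ hF w4 (tv_can hk t1)
  · have w1 : TV k q (F a) c (c + q) E :=
      ⟨t1, ok_neg (by omega) (by omega), t3, ok_neg (by omega) (by omega)⟩
    refine (step1 _ hF ⟨t1, t2, t3, t4⟩ w1).trans ?_
    exact step2 _ hF w1 (tv_can hk t1)

theorem can_shift (hk : 4 * q ≤ k) (hq : 0 < q) {F : W → ℤ} (hF : Val H k q F) {c : ℤ}
    (h : Ok k q (F a - c)) (j : ℤ) : Conn (att H a) k q (can q F c) (can q F (c + j * k)) := by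
  have h0 := tv_can hk h
  have h1 : TV k q (F a) (c + j * k) (c + q) (c + 2 * q) :=
    ⟨h0.1.shift' (-j) (by ring), h0.2.1.shift' j (by ring), h0.2.2.1.shift' j (by ring),
      h0.2.2.2⟩
  exact (step0 _ hF h0 h1).trans (to_can1 hk hq hF h1)

theorem can_down (hk : 4 * q ≤ k) (hq : 0 < q) {F : W → ℤ} (hF : Val H k q F) {c : ℤ}
    (h : Ok k q (F a - c)) (h' : Ok k q (F a - (c - 1))) :
    Conn (att H a) k q (can q F c) (can q F (c - 1)) := by
  have h0 := tv_can hk h
  have h1 : TV k q (F a) (c - 1) (c + q) (c + 2 * q) :=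
    ⟨h', ok_neg (by omega) (by omega), ok_neg (by omega) (by omega), h0.2.2.2⟩
  exact (step0 _ hF h0 h1).trans (to_can1 hk hq hF h1)

theorem can_interval (hk : 4 * q ≤ k) (hq : 0 < q) {F : W → ℤ} (hF : Val H k q F) :
    ∀ n : ℕ, F a + q + n ≤ F a + k - q →
      Conn (att H a) k q (can q F (F a + q + n)) (can q F (F a + q)) := by
  intro n
  induction n with
  | zero =>
    intro _
    have : F a + q + ((0 : ℕ) : ℤ) = F a + q := by simp
    rw [this]
    exact Conn.refl _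
  | succ n ih =>
    intro hn
    push_cast at hn
    refine Conn.trans ?_ (ih (by omega))
    have e : F a + q + (n : ℤ) = F a + q + ((n + 1 : ℕ) : ℤ) - 1 := by push_cast; ring
    rw [e]
    refine can_down hk hq hF (ok_neg ?_ ?_) (ok_neg ?_ ?_) <;> push_cast <;> omega

theorem can_to_base (hk : 4 * q ≤ k) (hq : 0 < q) {F : W → ℤ} (hF : Val H k q F) {c : ℤ}
    (h : Ok k q (F a - c)) : Conn (att H a) k q (can q F c) (can q F (F a + q)) := by
  obtain ⟨m, h1, h2⟩ := h
  have h0 : Ok k q (F a - c) := ⟨m, h1, h2⟩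
  refine (can_shift hk hq hF h0 (m + 1)).trans ?_
  have e1 : (m + 1) * (k : ℤ) = m * k + k := by ring
  rw [e1] at h2 ⊢
  generalize m * (k : ℤ) = M at *
  obtain ⟨n, hn⟩ : ∃ n : ℕ, (n : ℤ) = c + (M + k) - (F a + q) :=
    ⟨(c + (M + k) - (F a + q)).toNat, Int.toNat_of_nonneg (by omega)⟩
  have e2 : c + (M + k) = F a + q + n := by omega
  rw [e2]
  exact can_interval hk hq hF n (by omega)

theorem can_can (hk : 4 * q ≤ k) (hq : 0 < q) {F : W → ℤ} (hF : Val H k q F) {c z : ℤ}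
    (h : Ok k q (F a - c)) (h' : Ok k q (F a - z)) :
    Conn (att H a) k q (can q F c) (can q F z) :=
  (can_to_base hk hq hF h).trans (can_to_base hk hq hF h').symm

/-- a colour allowed next to two given colours -/
theorem exists_common (hk : 4 * q ≤ k) (hq : 0 < q) (y y' : ℤ) :
    ∃ z, Ok k q (y - z) ∧ Ok k q (y' - z) := by
  have hq' : (0 : ℤ) < q := by exact_mod_cast hq
  obtain ⟨j, h1, h2⟩ := exists_lift (k := k) (by omega) y y'
  by_cases hc : y' + j * k ≤ y + k - 2 * q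
  · refine ⟨y' + j * k + q, ?_, ?_⟩
    · generalize y' + j * (k : ℤ) = Y at *
      exact ok_neg (by omega) (by omega)
    · have : Ok k q (-(q : ℤ)) := ok_neg (by omega) (by omega)
      exact this.shift' (-j) (by ring)
  · refine ⟨y' + j * k - q, ?_, ?_⟩
    · generalize y' + j * (k : ℤ) = Y at *
      exact ok_neg (by omega) (by omega)
    · have : Ok k q (q : ℤ) := ok_pos (by omega) (by omega)
      exact this.shift' (-j) (by ring)

theorem lift_conn (hk : 4 * q ≤ k) (hq : 0 < q) {F F' : W → ℤ} (h : Conn H k q F F')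
    (hF : Val H k q F) {c : ℤ} (hc : Ok k q (F a - c)) :
    ∃ z, Ok k q (F' a - z) ∧ Conn (att H a) k q (can q F c) (can q F' z) := by
  unfold Conn at h
  induction h with
  | refl => exact ⟨c, hc, Conn.refl _⟩
  | @tail F1 F2 h1 h2 ih =>
    obtain ⟨z1, hz1, hconn⟩ := ih
    obtain ⟨hv1, hv2, v, hv⟩ := h2
    obtain ⟨z, hza, hzb⟩ := exists_common hk hq (F1 a) (F2 a)
    refine ⟨z, hzb, hconn.trans ((can_can hk hq hv1 hz1 hza).trans ?_)⟩
    refine Mv.conn ⟨val_mk hv1 (tv_can hk hza), val_mk hv2 (tv_can hk hzb), Sum.inl v, ?_⟩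
    rintro (x | i) hu
    · have hx : x ≠ v := fun h => hu (by rw [h])
      exact hv x hx
    · rfl

/-- If `H` is connected under moves, so is `H` with a triangle attached by an edge. -/
theorem att_conn (hk : 4 * q ≤ k) (hq : 0 < q)
    (hH : ∀ F F' : W → ℤ, Val H k q F → Val H k q F' → Conn H k q F F') :
    ∀ Φ Φ' : W ⊕ Fin 3 → ℤ, Val (att H a) k q Φ → Val (att H a) k q Φ' →
      Conn (att H a) k q Φ Φ' := by
  intro Φ Φ' h h'
  obtain ⟨h1, h2⟩ := val_split h
  obtain ⟨h1', h2'⟩ := val_split h'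
  have e := eq_mk Φ
  have e' := eq_mk Φ'
  generalize Φ (Sum.inr 0) = c at *
  generalize Φ (Sum.inr 1) = d at *
  generalize Φ (Sum.inr 2) = t at *
  generalize Φ' (Sum.inr 0) = c' at *
  generalize Φ' (Sum.inr 1) = d' at *
  generalize Φ' (Sum.inr 2) = t' at *
  have r1 : Conn (att H a) k q Φ (can q (fun w => Φ (Sum.inl w)) c) := by
    conv_lhs => rw [e]
    exact to_can1 hk hq h1 h2
  have r2 : Conn (att H a) k q Φ' (can q (fun w => Φ' (Sum.inl w)) c') := by
    conv_lhs => rw [e']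
    exact to_can1 hk hq h1' h2'
  obtain ⟨z, hz, r3⟩ := lift_conn (a := a) hk hq (hH _ _ h1 h1') h1 h2.1
  exact r1.trans (r3.trans ((can_can hk hq h1' hz h2'.1).trans r2.symm))

end X193.CubeMix
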